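import Pool.Agent.Helper92.FR.GoalsA

/-!
# FR-LOW: the lower bound for a log-concave density near the mean
-/

namespace Pool.Agent.Helper77.FR

open MeasureTheory Pool.Agent.Helper92.FR

noncomputable section

/-- The superlevel sets of a log-concave function are convex. -/
lemma convex_sup {d : ℕ} (p : (Fin d → ℝ) → ℝ) (hlc : LC p) (c : ℝ) (hc : 0 ≤ c) :
    Convex ℝ {x | c < p x} := by
  intro x hx y hy a b ha hb hab
  simp only [Set.mem_setOf_eq] at hx hy ⊢
  rcases eq_or_lt_of_le hb with hb0 | hb0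
  · have ha1 : a = 1 := by linarith
    rw [← hb0, ha1]
    simpa using hx
  rcases eq_or_lt_of_le ha with ha0 | ha0
  · have hb1 : b = 1 := by linarith
    rw [← ha0, hb1]
    simpa using hy
  have hb1 : b < 1 := by linarith
  have h := hlc x y b hb0 hb1
  have e : (fun i => (1 - b) * x i + b * y i) = a • x + b • y := by
    funext i
    have : 1 - b = a := by linarith
    simp [this]
  rw [e] at h
  set μ := min (p x) (p y) with hμ
  have hcμ : c < μ := lt_min hx hy
  have hμ0 : 0 < μ := lt_of_le_of_lt hc hcμ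
  have h1 : μ ^ (1 - b) ≤ p x ^ (1 - b) :=
    Real.rpow_le_rpow hμ0.le (min_le_left _ _) (by linarith)
  have h2 : μ ^ b ≤ p y ^ b := Real.rpow_le_rpow hμ0.le (min_le_right _ _) hb0.le
  have h3 : μ = μ ^ (1 - b) * μ ^ b := by
    rw [← Real.rpow_add hμ0]
    simp
  calc c < μ := hcμ
    _ = μ ^ (1 - b) * μ ^ b := h3
    _ ≤ p x ^ (1 - b) * p y ^ b :=
        mul_le_mul h1 h2 (Real.rpow_nonneg hμ0.le _)
          (Real.rpow_nonneg (le_trans hμ0.le (min_le_left _ _)) _)
    _ ≤ _ := h

/-- The supporting direction. -/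
lemma exists_theta {d : ℕ} (hd : 1 ≤ d) (p : (Fin d → ℝ) → ℝ) (h0 : ∀ y, 0 ≤ p y) (hlc : LC p)
    (y : Fin d → ℝ) : ∃ θ : Fin d → ℝ, ∑ i, θ i ^ 2 = 1 ∧
      volume {x : Fin d → ℝ | (∑ i, θ i * y i < ∑ i, θ i * x i) ∧ p y < p x} = 0 := by
  classical
  set K : Set (Fin d → ℝ) := {x | p y < p x} with hK
  have hconv : Convex ℝ K := convex_sup p hlc (p y) (h0 y)
  by_cases hne : (interior K).Nonempty
  · have hy : y ∉ interior K := fun h => by
      have := interior_subset h
      simp [hK] at this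
    obtain ⟨f, hf⟩ := geometric_hahn_banach_open_point hconv.interior isOpen_interior hy
    have hcl : ∀ x ∈ K, f x ≤ f y := by
      intro x hx
      have h1 : x ∈ closure (interior K) := by
        rw [hconv.closure_interior_eq_closure_of_nonempty_interior hne]
        exact subset_closure hx
      have h2 : closure (interior K) ⊆ {x | f x ≤ f y} := by
        apply closure_minimal
        · intro a ha
          exact (hf a ha).le
        · exact isClosed_le f.continuous continuous_const
      exact h2 h1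
    set φ : Fin d → ℝ := fun i => f (Pi.single i 1) with hφ
    have hfx : ∀ x : Fin d → ℝ, f x = ∑ i, φ i * x i := by
      intro x
      have : x = ∑ i, x i • (Pi.single i (1 : ℝ) : Fin d → ℝ) := by
        funext j
        simp [Finset.sum_apply, Pi.single_apply]
      conv_lhs => rw [this]
      rw [map_sum]
      refine Finset.sum_congr rfl fun i _ => ?_
      rw [map_smul, smul_eq_mul, mul_comm]
    have hpos : 0 < ∑ i, φ i ^ 2 := by
      rcases eq_or_lt_of_le (Finset.sum_nonneg fun i (_ : i ∈ Finset.univ) => sq_nonneg (φ i))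
        with h | h
      · exfalso
        have hz : ∀ i, φ i = 0 := by
          intro i
          have := (Finset.sum_eq_zero_iff_of_nonneg
            (fun i (_ : i ∈ Finset.univ) => sq_nonneg (φ i))).1 h.symm i (Finset.mem_univ i)
          exact pow_eq_zero_iff (two_ne_zero) |>.1 this
        obtain ⟨a, ha⟩ := hne
        have := hf a ha
        rw [hfx, hfx] at this
        simp [hz] at this
      · exact h
    set s := Real.sqrt (∑ i, φ i ^ 2) with hs
    have hs0 : 0 < s := Real.sqrt_pos.2 hpos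
    have hs2 : s ^ 2 = ∑ i, φ i ^ 2 := Real.sq_sqrt hpos.le
    refine ⟨fun i => φ i / s, ?_, ?_⟩
    · simp only [div_pow]
      rw [← Finset.sum_div, ← hs2]
      exact div_self (by positivity)
    · have : {x : Fin d → ℝ | (∑ i, φ i / s * y i < ∑ i, φ i / s * x i) ∧ p y < p x} = ∅ := by
        apply Set.eq_empty_of_forall_notMem
        rintro x ⟨h1, h2⟩
        have h3 := hcl x h2
        rw [hfx, hfx] at h3
        have e : ∀ z : Fin d → ℝ, ∑ i, φ i / s * z i = (∑ i, φ i * z i) / s := by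
          intro z
          rw [Finset.sum_div]
          exact Finset.sum_congr rfl fun i _ => by ring
        rw [e, e] at h1
        have h4 : (∑ i, φ i * x i) / s ≤ (∑ i, φ i * y i) / s := by gcongr
        linarith
      rw [this]
      exact measure_empty
  · rw [Set.not_nonempty_iff_eq_empty] at hne
    refine ⟨Pi.single ⟨0, hd⟩ 1, ?_, ?_⟩
    · rw [Finset.sum_eq_single ⟨0, hd⟩]
      · simp
      · intro j _ hj
        simp [Pi.single_apply, hj]
      · simp
    · have hnull : volume K = 0 := by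
        have h1 : K ⊆ frontier K := by
          intro x hx
          rw [frontier, hne]
          exact ⟨subset_closure hx, by simp⟩
        exact measure_mono_null h1 (hconv.addHaar_frontier volume)
      exact measure_mono_null (fun x hx => hx.2) hnull

/-- The numerical estimate for the tail. -/
lemma tail_num (d : ℕ) (hd : 1 ≤ d) :
    8 * (d : ℝ) * Real.exp (-(200 * (d : ℝ) - 1) / 4) ≤ 5 / 10 ^ 15 := by
  have hd1 : (1 : ℝ) ≤ d := by exact_mod_cast hd
  have h1 : (d : ℝ) ≤ Real.exp (50 * ((d : ℝ) - 1)) := by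
    have := Real.add_one_le_exp (50 * ((d : ℝ) - 1))
    linarith
  have h2 : Real.exp (-(200 * (d : ℝ) - 1) / 4) * Real.exp (50 * ((d : ℝ) - 1)) =
      Real.exp (-(199 / 4)) := by
    rw [← Real.exp_add]
    congr 1
    ring
  have h3 : Real.exp (-(199 / 4)) ≤ 5 / 10 ^ 15 / 8 := by
    have h4 : Real.exp (-(199 / 4)) ≤ Real.exp (-49) := Real.exp_le_exp.2 (by norm_num)
    have h5 : Real.exp (-49) = (Real.exp 49)⁻¹ := Real.exp_neg 49
    have h6 : Real.exp 49 = Real.exp 1 ^ 49 := by
      rw [← Real.exp_nat_mul]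
      norm_num
    have h7 : (2.7 : ℝ) < Real.exp 1 := lt_trans (by norm_num) Real.exp_one_gt_d9
    have h8 : (2.7 : ℝ) ^ 49 ≤ Real.exp 49 := by
      rw [h6]
      exact pow_le_pow_left₀ (by norm_num) h7.le 49
    have h9 : (10 : ℝ) ^ 20 ≤ Real.exp 49 := le_trans (by norm_num) h8
    rw [h5] at h4
    have h10 : (Real.exp 49)⁻¹ ≤ ((10 : ℝ) ^ 20)⁻¹ := by
      apply inv_anti₀ (by positivity) h9
    refine le_trans h4 (le_trans h10 ?_)
    norm_num
  have h11 : (d : ℝ) * Real.exp (-(200 * (d : ℝ) - 1) / 4) ≤ Real.exp (-(199 / 4)) := by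
    rw [← h2, mul_comm]
    exact mul_le_mul_of_nonneg_left h1 (Real.exp_pos _).le
  nlinarith

/-- The lower bound. -/
theorem low (hDep : DepStmt) (hTail : TailStmt) : LowStmt := by
  intro d hd p m hp h0 hlc hMom hm y hy
  set P : Measure (Fin d → ℝ) := volume.withDensity fun y => ENNReal.ofReal (p y) with hP
  obtain ⟨θ, hθ, hnull⟩ := exists_theta hd p h0 hlc y
  have hMom' := hMom
  obtain ⟨hprob, hexp, hmv⟩ := hMom
  -- the law of the projection
  set g : (Fin d → ℝ) → ℝ := fun x => ∑ i, θ i * (x i - m i) with hg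
  have hgc : Continuous g := by
    rw [hg]
    fun_prop
  have hgm : Measurable g := hgc.measurable
  set ν : Measure ℝ := P.map g with hν
  have hνp : IsProbabilityMeasure ν := Measure.isProbabilityMeasure_map hgm.aemeasurable
  have hθ4 : ∑ i, (θ i / 4) ^ 2 ≤ 1 / 16 := by
    simp only [div_pow]
    rw [← Finset.sum_div, hθ]
    norm_num
  have hθ4' : ∑ i, (-(θ i / 4)) ^ 2 ≤ 1 / 16 := by
    simpa using hθ4
  have e1 : ∀ x : Fin d → ℝ, ∑ i, (θ i / 4) * (x i - m i) = g x / 4 := by
    intro x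
    rw [hg]
    simp only
    rw [Finset.sum_div]
    exact Finset.sum_congr rfl fun i _ => by ring
  have e2 : ∀ x : Fin d → ℝ, ∑ i, (-(θ i / 4)) * (x i - m i) = -g x / 4 := by
    intro x
    rw [hg]
    simp only
    rw [neg_div, Finset.sum_div, ← Finset.sum_neg_distrib]
    exact Finset.sum_congr rfl fun i _ => by ring
  have hnum : Real.exp (18 * (1 / 16)) ≤ 4 := by
    have h1 : Real.exp (18 * (1 / 16)) ≤ Real.exp (5 / 4) := Real.exp_le_exp.2 (by norm_num)
    have h2 : Real.exp (5 / 4) ^ 4 = Real.exp 1 ^ 5 := by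
      rw [← Real.exp_nat_mul, ← Real.exp_nat_mul]
      norm_num
    have h3 : Real.exp 1 ≤ 2.72 := le_trans Real.exp_one_lt_d9.le (by norm_num)
    have h4 : Real.exp (5 / 4) ^ 4 ≤ 4 ^ 4 := by
      rw [h2]
      exact le_trans (pow_le_pow_left₀ (Real.exp_pos _).le h3 5) (by norm_num)
    exact le_trans h1 (le_of_pow_le_pow_left₀ (by norm_num) (by norm_num) h4)
  have hi1 := hexp (fun i => θ i / 4) hθ4
  have hi2 := hexp (fun i => -(θ i / 4)) hθ4'
  simp only [e1] at hi1
  simp only [e2] at hi2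
  have hb1 : ∫ x, Real.exp (g x / 4) ∂P ≤ 4 := by
    refine le_trans hi1.2 (le_trans (Real.exp_le_exp.2 ?_) hnum)
    linarith
  have hb2 : ∫ x, Real.exp (-g x / 4) ∂P ≤ 4 := by
    refine le_trans hi2.2 (le_trans (Real.exp_le_exp.2 ?_) hnum)
    linarith
  have hc1 : Continuous fun x : ℝ => Real.exp (x / 4) := by fun_prop
  have hc2 : Continuous fun x : ℝ => Real.exp (-x / 4) := by fun_prop
  have hdep := hDep ν hνp
    (by
      rw [hν, integrable_map_measure hc1.aestronglyMeasurable hgm.aemeasurable]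
      exact hi1.1)
    (by
      rw [hν, integrable_map_measure hc2.aestronglyMeasurable hgm.aemeasurable]
      exact hi2.1)
    (by
      rw [hν, integral_map hgm.aemeasurable hc1.aestronglyMeasurable]
      exact hb1)
    (by
      rw [hν, integral_map hgm.aemeasurable hc2.aestronglyMeasurable]
      exact hb2)
    (by
      rw [hν, integral_map hgm.aemeasurable (by exact aestronglyMeasurable_id)]
      exact (hmv θ).1)
    (by
      rw [hν, integral_map hgm.aemeasurable (by
        exact (continuous_pow 2).aestronglyMeasurable)]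
      have := (hmv θ).2
      rw [hθ] at this
      linarith)
  rw [hν, Measure.map_apply hgm measurableSet_Ioi] at hdep
  -- the half space
  set H : Set (Fin d → ℝ) := {x | ∑ i, θ i * y i < ∑ i, θ i * x i} with hH
  have hHm : MeasurableSet H := by
    apply measurableSet_lt measurable_const
    fun_prop
  have hsub : g ⁻¹' Set.Ioi (2 / 10 ^ 6) ⊆ H := by
    intro x hx
    have hx1 : (2 : ℝ) / 10 ^ 6 < g x := hx
    have hcs : (∑ i, θ i * (y i - m i)) ^ 2 ≤ (∑ i, θ i ^ 2) * ∑ i, (y i - m i) ^ 2 :=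
      Finset.sum_mul_sq_le_sq_mul_sq _ _ _
    have h1 : ∑ i, (y i - m i) ^ 2 ≤ 2 * ∑ i, y i ^ 2 + 2 * ∑ i, m i ^ 2 := by
      rw [Finset.mul_sum, Finset.mul_sum, ← Finset.sum_add_distrib]
      apply Finset.sum_le_sum
      intro i _
      nlinarith [sq_nonneg (y i + m i)]
    rw [hθ, one_mul] at hcs
    have h2 : (∑ i, θ i * (y i - m i)) ^ 2 ≤ (2 / 10 ^ 6) ^ 2 := by
      refine le_trans hcs (le_trans h1 ?_)
      norm_num
      norm_num at hy hm
      linarith
    have h3 : ∑ i, θ i * (y i - m i) ≤ 2 / 10 ^ 6 :=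
      (abs_le_of_sq_le_sq' h2 (by norm_num)).2
    have h4 : ∑ i, θ i * (y i - m i) < ∑ i, θ i * (x i - m i) := lt_of_le_of_lt h3 hx1
    have e : ∀ z : Fin d → ℝ, ∑ i, θ i * (z i - m i) = ∑ i, θ i * z i - ∑ i, θ i * m i := by
      intro z
      rw [← Finset.sum_sub_distrib]
      exact Finset.sum_congr rfl fun i _ => by ring
    rw [e, e] at h4
    show ∑ i, θ i * y i < ∑ i, θ i * x i
    linarith
  -- the box
  set B : Set (Fin d → ℝ) := Set.Icc (fun _ => -(200 * (d : ℝ))) (fun _ => 200 * (d : ℝ)) with hB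
  have hBv : volume B = ENNReal.ofReal ((400 * (d : ℝ)) ^ d) := by
    rw [hB, Real.volume_Icc_pi, ENNReal.ofReal_pow (by positivity)]
    simp only [Finset.prod_const, Finset.card_univ, Fintype.card_fin]
    congr 2
    ring
  have hPB : P (H ∩ B) ≤ ENNReal.ofReal (p y) * volume B := by
    rw [hP, withDensity_apply _ (hHm.inter measurableSet_Icc)]
    calc ∫⁻ x in H ∩ B, ENNReal.ofReal (p x)
        ≤ ∫⁻ x in H ∩ B, ENNReal.ofReal (p y) := by
          apply setLIntegral_mono_ae' (hHm.inter measurableSet_Icc)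
          have hae : ∀ᵐ x ∂(volume : Measure (Fin d → ℝ)),
              ¬ ((∑ i, θ i * y i < ∑ i, θ i * x i) ∧ p y < p x) := by
            rw [ae_iff]
            simpa using hnull
          filter_upwards [hae] with x hx hxm
          apply ENNReal.ofReal_le_ofReal
          by_contra hcon
          exact hx ⟨hxm.1, not_le.1 hcon⟩
      _ = ENNReal.ofReal (p y) * volume (H ∩ B) := by
          rw [setLIntegral_const]
      _ ≤ ENNReal.ofReal (p y) * volume B := by
          gcongr
          exact Set.inter_subset_right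
  have hPBc : P {x | ∃ i, 200 * (d : ℝ) < |x i|} ≤ ENNReal.ofReal (5 / 10 ^ 15) := by
    have h1 := hTail d P m hMom' hm (200 * (d : ℝ)) (by positivity)
    have h2 := le_trans h1 (tail_num d hd)
    rw [← ENNReal.ofReal_toReal (measure_ne_top P {x | ∃ i, 200 * (d : ℝ) < |x i|})]
    exact ENNReal.ofReal_le_ofReal h2
  have hcov : H ⊆ (H ∩ B) ∪ {x | ∃ i, 200 * (d : ℝ) < |x i|} := by
    intro x hx
    by_cases hxB : x ∈ B
    · exact Or.inl ⟨hx, hxB⟩
    · right
      by_contra hcon
      apply hxB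
      simp only [Set.mem_setOf_eq, not_exists, not_lt] at hcon
      rw [hB]
      refine ⟨fun i => ?_, fun i => ?_⟩
      · exact (abs_le.1 (hcon i)).1
      · exact (abs_le.1 (hcon i)).2
  have hfin : ENNReal.ofReal (1 / 10 ^ 14) ≤
      ENNReal.ofReal (p y * (400 * (d : ℝ)) ^ d + 5 / 10 ^ 15) := by
    rw [ENNReal.ofReal_add (mul_nonneg (h0 y) (by positivity)) (by positivity),
      ENNReal.ofReal_mul (h0 y), ← hBv]
    calc ENNReal.ofReal (1 / 10 ^ 14) ≤ P (g ⁻¹' Set.Ioi (2 / 10 ^ 6)) := hdep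
      _ ≤ P H := measure_mono hsub
      _ ≤ P ((H ∩ B) ∪ {x | ∃ i, 200 * (d : ℝ) < |x i|}) := measure_mono hcov
      _ ≤ P (H ∩ B) + P {x | ∃ i, 200 * (d : ℝ) < |x i|} := measure_union_le _ _
      _ ≤ _ := add_le_add hPB hPBc
  have hpos : 0 ≤ p y * (400 * (d : ℝ)) ^ d + 5 / 10 ^ 15 :=
    add_nonneg (mul_nonneg (h0 y) (by positivity)) (by positivity)
  have h5 := (ENNReal.ofReal_le_ofReal_iff hpos).1 hfin
  unfold plow
  have hd1 : (1 : ℝ) ≤ d := by exact_mod_cast hd
  rw [div_le_iff₀ (by positivity)]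
  have h6 : (1 : ℝ) / 10 ^ 14 - 5 / 10 ^ 15 = 5 / 10 ^ 15 := by norm_num
  linarith

end

end Pool.Agent.Helper77.FR
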