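import Pool.Agent.Helper92.FR.GoalsA

/-!
# FR-SPP: an almost everywhere upper bound of a log-concave density holds everywhere
-/

namespace Pool.Agent.Helper77.FR

open MeasureTheory Pool.Agent.Helper92.FR

noncomputable section

/-- The main step: a point with a positive value. -/
lemma spp_pos (d : ℕ) (p : (Fin d → ℝ) → ℝ) (c B : ℝ) (h0 : ∀ y, 0 ≤ p y)
    (hlc : LC p) (hc : 0 < c) (hcp : ∀ y : Fin d → ℝ, ∑ i, y i ^ 2 ≤ 1 / 10 ^ 12 → c ≤ p y)
    (hB : ∀ A : Set (Fin d → ℝ), MeasurableSet A →
      (volume.withDensity fun y => ENNReal.ofReal (p y)) A ≤ ENNReal.ofReal B * volume A)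
    (x : Fin d → ℝ) (hx : 0 < p x) : p x ≤ B := by
  by_contra hcon
  rw [not_le] at hcon
  -- the choice of t
  have hcont : Filter.Tendsto (fun t : ℝ => p x ^ (1 - t) * c ^ t) (nhds 0) (nhds (p x)) := by
    have h1 : Continuous fun t : ℝ => p x ^ (1 - t) * c ^ t := by
      apply Continuous.mul
      · exact (Real.continuous_const_rpow hx.ne').comp (continuous_const.sub continuous_id)
      · exact Real.continuous_const_rpow hc.ne'
    have h2 := h1.tendsto 0
    simpa using h2
  have hev := hcont.eventually (lt_mem_nhds hcon)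
  obtain ⟨ε, hε, hball⟩ := Metric.eventually_nhds_iff.1 hev
  set t : ℝ := min (ε / 2) (1 / 2) with ht
  have ht0 : 0 < t := lt_min (by linarith) (by norm_num)
  have ht1 : t < 1 := lt_of_le_of_lt (min_le_right _ _) (by norm_num)
  have htε : dist t 0 < ε := by
    rw [Real.dist_eq, sub_zero, abs_of_pos ht0]
    exact lt_of_le_of_lt (min_le_left _ _) (by linarith)
  set L : ℝ := p x ^ (1 - t) * c ^ t with hL
  have hBL : B < L := hball htε
  have hL0 : 0 < L := mul_pos (Real.rpow_pos_of_pos hx _) (Real.rpow_pos_of_pos hc _)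
  -- the ball
  set δ : ℝ := 1 / 10 ^ 6 / ((d : ℝ) + 1) with hδ
  have hδ0 : 0 < δ := by positivity
  set A : Set (Fin d → ℝ) := Metric.ball ((1 - t) • x) (t * δ) with hA
  have hAm : MeasurableSet A := Metric.isOpen_ball.measurableSet
  have hApos : 0 < volume A := Metric.measure_ball_pos _ _ (by positivity)
  have hAfin : volume A ≠ ⊤ := (measure_ball_lt_top).ne
  have hpA : ∀ z ∈ A, L ≤ p z := by
    intro z hz
    set y : Fin d → ℝ := fun i => (z i - (1 - t) * x i) / t with hy
    have hzi : ∀ i, |z i - (1 - t) * x i| ≤ t * δ := by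
      intro i
      have h1 : dist z ((1 - t) • x) < t * δ := hz
      have h2 : dist (z i) (((1 - t) • x) i) ≤ dist z ((1 - t) • x) := dist_le_pi_dist _ _ i
      rw [Real.dist_eq] at h2
      simpa using le_trans h2 h1.le
    have hyi : ∀ i, y i ^ 2 ≤ δ ^ 2 := by
      intro i
      apply sq_le_sq'
      · have := (abs_le.1 (hzi i)).1
        rw [hy]
        simp only
        rw [le_div_iff₀ ht0]
        linarith
      · have := (abs_le.1 (hzi i)).2
        rw [hy]
        simp only
        rw [div_le_iff₀ ht0]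
        linarith
    have hysum : ∑ i, y i ^ 2 ≤ 1 / 10 ^ 12 := by
      calc ∑ i, y i ^ 2 ≤ ∑ _i : Fin d, δ ^ 2 := Finset.sum_le_sum fun i _ => hyi i
        _ = d * δ ^ 2 := by simp
        _ ≤ 1 / 10 ^ 12 := by
            have h1 : δ ^ 2 = 1 / 10 ^ 12 / ((d : ℝ) + 1) ^ 2 := by
              rw [hδ, div_pow]
              norm_num
            rw [h1, mul_div_assoc', div_le_iff₀ (by positivity)]
            have h2 : (0 : ℝ) ≤ d := Nat.cast_nonneg d
            nlinarith
    have hzy : (fun i => (1 - t) * x i + t * y i) = z := by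
      funext i
      rw [hy]
      simp only
      field_simp
      ring
    have h1 := hlc x y t ht0 ht1
    rw [hzy] at h1
    refine le_trans ?_ h1
    rw [hL]
    apply mul_le_mul_of_nonneg_left _ (Real.rpow_nonneg hx.le _)
    exact Real.rpow_le_rpow hc.le (hcp y hysum) ht0.le
  have h1 := hB A hAm
  rw [withDensity_apply _ hAm] at h1
  have h2 : ENNReal.ofReal L * volume A ≤ ∫⁻ z in A, ENNReal.ofReal (p z) := by
    rw [← setLIntegral_const]
    apply setLIntegral_mono_ae' hAm
    filter_upwards with z hz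
    exact ENNReal.ofReal_le_ofReal (hpA z hz)
  have h3 := le_trans h2 h1
  have h4 : ENNReal.ofReal B * volume A < ENNReal.ofReal L * volume A := by
    rw [ENNReal.mul_lt_mul_iff_left hApos.ne' hAfin]
    exact (ENNReal.ofReal_lt_ofReal_iff hL0).2 hBL
  exact absurd h3 (not_le.2 h4)

/-- The bound everywhere. -/
theorem spp : SppStmt := by
  intro d p c B _ h0 hlc hc hcp hB y
  rcases eq_or_lt_of_le (h0 y) with h | h
  · have h1 : c ≤ p 0 := hcp 0 (by simp)
    have h2 : p 0 ≤ B := spp_pos d p c B h0 hlc hc hcp hB 0 (lt_of_lt_of_le hc h1)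
    linarith
  · exact spp_pos d p c B h0 hlc hc hcp hB y h

end

end Pool.Agent.Helper77.FR
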