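import Pool.Agent.Helper92.FR.GoalsB

/-!
# FR-TIL: the tilt found by the cutting plane method
-/

namespace Pool.Agent.Helper77.FR

open MeasureTheory Pool.Agent.Helper92.FR Pool.Agent.Helper81.CC Pool.Agent.Bin
  Pool.Agent.Helper92.VP

noncomputable section

/-- a bound for the centroid -/
lemma cent_le {d : ℕ} (V : Fin (d + 1) → Fin d → ℝ) (M : ℝ) (h : ∀ i l, |V i l| ≤ M)
    (l : Fin d) : |cent V l| ≤ M := by
  unfold cent
  rw [abs_div, abs_of_pos (by positivity : (0 : ℝ) < (d : ℝ) + 1), div_le_iff₀ (by positivity)]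
  calc |∑ i, V i l| ≤ ∑ i, |V i l| := Finset.abs_sum_le_sum_abs _ _
    _ ≤ ∑ _i : Fin (d + 1), M := Finset.sum_le_sum fun i _ => h i l
    _ = M * ((d : ℝ) + 1) := by
        rw [Finset.sum_const, Finset.card_univ, Fintype.card_fin, nsmul_eq_mul]
        push_cast
        ring

lemma nat_le_two_pow (n : ℕ) : (n : ℝ) ≤ 2 ^ n := by
  exact_mod_cast Nat.lt_two_pow_self.le

/-- the elementary bound for the vertices -/
lemma pow_bound (T R k d : ℕ) (hk : k ≤ T) (hd : d ≤ R) :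
    (5 : ℝ) ^ k * (2 * d * 2 ^ (4 * R)) ≤ 2 ^ (3 * T + 6 * R) := by
  have h1 : (5 : ℝ) ^ k ≤ 2 ^ (3 * T) := by
    calc (5 : ℝ) ^ k ≤ 8 ^ k := pow_le_pow_left₀ (by norm_num) (by norm_num) k
      _ ≤ 8 ^ T := pow_le_pow_right₀ (by norm_num) hk
      _ = 2 ^ (3 * T) := by rw [pow_mul]; norm_num
  have h2 : (2 : ℝ) * d ≤ 2 ^ (2 * R) := by
    have h3 : (d : ℝ) ≤ R := by exact_mod_cast hd
    have h4 := nat_le_two_pow (2 * R)
    push_cast at h4
    linarith
  calc (5 : ℝ) ^ k * (2 * d * 2 ^ (4 * R)) ≤ 2 ^ (3 * T) * (2 ^ (2 * R) * 2 ^ (4 * R)) := by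
        gcongr
    _ = 2 ^ (3 * T + 6 * R) := by rw [← pow_add, ← pow_add]; congr 1; ring

lemma two_mul_le_two_pow {R : ℕ} (hR : 1 ≤ R) : 2 * (R : ℝ) ≤ 2 ^ R := by
  obtain ⟨S, rfl⟩ : ∃ S, R = S + 1 := ⟨R - 1, by omega⟩
  have h1 : S + 1 ≤ 2 ^ S := Nat.lt_two_pow_self
  have h2 : ((S : ℝ) + 1) ≤ 2 ^ S := by exact_mod_cast h1
  push_cast
  rw [pow_succ]
  linarith

lemma succ_le_two_pow (R : ℕ) : (R : ℝ) + 1 ≤ 2 ^ R := by
  have h1 : R + 1 ≤ 2 ^ R := Nat.lt_two_pow_self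
  exact_mod_cast h1

/-- the bound for the minimiser -/
lemma min_bound (R N d : ℕ) (hR : 10 ≤ R) (hND : N + d ≤ R) :
    2 * ((N : ℝ) + d) / (1 / 2 ^ R) * Real.log (2 / (1 / 2 ^ R)) ≤ 2 ^ (4 * R) - 1 := by
  have e1 : (2 : ℝ) / (1 / 2 ^ R) = 2 ^ (R + 1) := by
    rw [div_div_eq_mul_div, div_one]
    ring
  have e2 : 2 * ((N : ℝ) + d) / (1 / 2 ^ R) = 2 * ((N : ℝ) + d) * 2 ^ R := by
    rw [div_div_eq_mul_div, div_one]
  rw [e1, e2, Real.log_pow]
  have hND' : (N : ℝ) + d ≤ R := by exact_mod_cast hND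
  have hlog : Real.log 2 ≤ 1 := by linarith [Real.log_two_lt_d9]
  have hlog0 : 0 ≤ Real.log 2 := Real.log_nonneg (by norm_num)
  have h1 := two_mul_le_two_pow (R := R) (by omega)
  have h2 := succ_le_two_pow R
  have hR0 : (0 : ℝ) ≤ R := Nat.cast_nonneg R
  calc 2 * ((N : ℝ) + d) * 2 ^ R * (((R + 1 : ℕ) : ℝ) * Real.log 2)
      ≤ 2 ^ R * 2 ^ R * (2 ^ R * 1) := by
        push_cast
        have h3 : 2 * ((N : ℝ) + d) ≤ 2 ^ R := by linarith
        gcongr
    _ = 2 ^ (3 * R) := by rw [mul_one, ← pow_add, ← pow_add]; congr 1; ring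
    _ ≤ 2 ^ (4 * R) - 1 := by
        have h3 : (2 : ℝ) ^ (4 * R) = 2 ^ (3 * R) * 2 ^ R := by
          rw [← pow_add]; congr 1; ring
        have h4 : (1 : ℝ) ≤ 2 ^ (3 * R) := one_le_pow₀ (by norm_num)
        have h5 : (2 : ℝ) ≤ 2 ^ R := by
          calc (2 : ℝ) = 2 ^ 1 := by norm_num
            _ ≤ 2 ^ R := pow_le_pow_right₀ (by norm_num) (by omega)
        rw [h3]
        nlinarith

/-- the number of steps is large enough -/
lemma log_bound (R d : ℕ) (hR : 10 ≤ R) (hd : 1 ≤ d) (hdR : d ≤ R) :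
    8 * ((d : ℝ) + 1) ^ 2 * (d * Real.log (2 * d * 2 ^ (4 * R) / (1 / 2 ^ (2 * R + 64)))) <
      ((100 * R ^ 4 : ℕ) : ℝ) := by
  have hRr : (10 : ℝ) ≤ R := by exact_mod_cast hR
  have hdr : (d : ℝ) ≤ R := by exact_mod_cast hdR
  have hd1 : (1 : ℝ) ≤ d := by exact_mod_cast hd
  have hRp : (R : ℝ) ≤ 2 ^ R := nat_le_two_pow R
  have h1 : 2 * (d : ℝ) * 2 ^ (4 * R) / (1 / 2 ^ (2 * R + 64)) ≤ 2 ^ (7 * R + 65) := by
    rw [div_div_eq_mul_div, div_one]
    calc 2 * (d : ℝ) * 2 ^ (4 * R) * 2 ^ (2 * R + 64)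
        ≤ 2 * 2 ^ R * 2 ^ (4 * R) * 2 ^ (2 * R + 64) := by
          have h2 : (d : ℝ) ≤ 2 ^ R := hdr.trans hRp
          gcongr
      _ = 2 ^ (7 * R + 65) := by
          rw [show 7 * R + 65 = 1 + R + 4 * R + (2 * R + 64) by ring, pow_add, pow_add, pow_add]
          ring
  have h2 : Real.log (2 * (d : ℝ) * 2 ^ (4 * R) / (1 / 2 ^ (2 * R + 64))) ≤ 9.36 * R := by
    calc Real.log (2 * (d : ℝ) * 2 ^ (4 * R) / (1 / 2 ^ (2 * R + 64)))
        ≤ Real.log (2 ^ (7 * R + 65)) := Real.log_le_log (by positivity) h1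
      _ = (7 * R + 65 : ℕ) * Real.log 2 := Real.log_pow _ _
      _ ≤ (7 * R + 65 : ℕ) * 0.6932 := by
          have := Real.log_two_lt_d9
          gcongr
          linarith
      _ ≤ 9.36 * R := by
          push_cast
          linarith
  have h3 : ((d : ℝ) + 1) ^ 2 ≤ (1.1 * R) ^ 2 := by
    apply pow_le_pow_left₀ (by positivity)
    linarith
  have h4 : (d : ℝ) * Real.log (2 * (d : ℝ) * 2 ^ (4 * R) / (1 / 2 ^ (2 * R + 64))) ≤
      R * (9.36 * R) := by
    calc (d : ℝ) * Real.log (2 * (d : ℝ) * 2 ^ (4 * R) / (1 / 2 ^ (2 * R + 64)))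
        ≤ d * (9.36 * R) := by gcongr
      _ ≤ R * (9.36 * R) := by gcongr
  calc 8 * ((d : ℝ) + 1) ^ 2 *
        (d * Real.log (2 * d * 2 ^ (4 * R) / (1 / 2 ^ (2 * R + 64))))
      ≤ 8 * ((d : ℝ) + 1) ^ 2 * (R * (9.36 * R)) :=
        mul_le_mul_of_nonneg_left h4 (by positivity)
    _ ≤ 8 * (1.1 * R) ^ 2 * (R * (9.36 * R)) := by gcongr
    _ < ((100 * R ^ 4 : ℕ) : ℝ) := by
        push_cast
        have h5 : (0 : ℝ) < (R : ℝ) ^ 4 := by positivity
        nlinarith

section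

variable (D : Nin) (R m : ℕ)

/-- the states are well formed -/
lemma cst_wf (hcpv : CpvStmt) (hval : Val1Stmt) (hD : Wf D) (hd : 1 ≤ nrow D) (P K B k : ℕ) :
    CWf (nrow D) (cst D P K B k) := by
  induction k with
  | zero => exact ((hcpv (nrow D) hd).2 B).1
  | succ k ih =>
    have h1 := ((hcpv (nrow D) hd).1 (cst D P K B k) (List.replicate (nrow D) Qn.zero) ih
      (by simp)).2.2.1
    have h2 := (hval D (cen (nrow D) (cst D P K B k)) hD h1).2.2.2.2.1 P K
    have h3 := ((hcpv (nrow D) hd).1 (cst D P K B k) _ ih h2).1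
    have h4 : cst D P K B (k + 1) = cut (nrow D) (cst D P K B k)
        (gtil D (cen (nrow D) (cst D P K B k)) P K) := by
      unfold cst
      rw [Function.iterate_succ_apply']
    rw [h4]
    exact h3

end

/-- The tilt. -/
theorem til (hcpa : CpaStmt) (hcpv : CpvStmt) (hval : Val1Stmt) (hpas : PasStmt)
    (hmin : MinStmt) (hgro : GroStmt) (hdec : DecStmt) : TilStmt := by
  intro D R m hD hd hR hND hS hm hcol
  set T : ℕ := 100 * R ^ 4 with hT
  set P : ℕ := 2000 * R ^ 4 with hP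
  set K : ℕ := 20000 * R ^ 4 with hK
  have hR4 : 10 ^ 4 ≤ R ^ 4 := Nat.pow_le_pow_left hR 4
  have hRR4 : R * 10 ^ 3 ≤ R ^ 4 := by
    calc R * 10 ^ 3 ≤ R * R ^ 3 := Nat.mul_le_mul_left _ (Nat.pow_le_pow_left hR 3)
      _ = R ^ 4 := by ring
  have hKP : 8 * P + 8 ≤ K := by
    rw [hK, hP]
    omega
  have hP1 : 1 ≤ P := by
    rw [hP]
    omega
  have hdR : nrow D ≤ R := by omega
  set st : ℕ → Cst := fun k => cst D P K (4 * R) k with hst
  have hwf : ∀ k, CWf (nrow D) (st k) := fun k => cst_wf D hcpv hval hD hd P K (4 * R) k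
  have hlen : ∀ k, (cen (nrow D) (st k)).length = nrow D := fun k =>
    ((hcpv (nrow D) hd).1 (st k) (List.replicate (nrow D) Qn.zero) (hwf k) (by simp)).2.2.1
  have hcen : ∀ k, lv (nrow D) (cen (nrow D) (st k)) = cent (VV (nrow D) (st k)) := fun k =>
    ((hcpv (nrow D) hd).1 (st k) (List.replicate (nrow D) Qn.zero) (hwf k) (by simp)).2.2.2
  have hglen : ∀ k, (gtil D (cen (nrow D) (st k)) P K).length = nrow D := fun k =>
    (hval D (cen (nrow D) (st k)) hD (hlen k)).2.2.2.2.1 P K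
  have hstep : ∀ k, st (k + 1) = cut (nrow D) (st k)
      (gtil D (cen (nrow D) (st k)) P K) := by
    intro k
    rw [hst]
    unfold cst
    simp only
    rw [Function.iterate_succ_apply']
  set V : ℕ → Fin (nrow D + 1) → Fin (nrow D) → ℝ := fun k => VV (nrow D) (st k) with hV
  set g : ℕ → Fin (nrow D) → ℝ := fun k =>
    lv (nrow D) (gtil D (cen (nrow D) (st k)) P K) with hg
  have hcut : ∀ k, CutR (V k) (V (k + 1)) (g k) := by
    intro k
    have h1 := ((hcpv (nrow D) hd).1 (st k) (gtil D (cen (nrow D) (st k)) P K) (hwf k)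
      (hglen k)).2.1
    show CutR (VV (nrow D) (st k)) (VV (nrow D) (st (k + 1))) _
    rw [hstep k]
    exact h1
  have hV0 : ∀ i l, V 0 i l = if i.val = l.val + 1 then (2 * (nrow D : ℝ) - 1) * 2 ^ (4 * R)
      else -2 ^ (4 * R) := by
    intro i l
    exact ((hcpv (nrow D) hd).2 (4 * R)).2 i l
  have hcpa' := hcpa (nrow D) hd V g (2 ^ (4 * R)) T (by positivity) hV0 (fun k _ => hcut k)
  have hVb : ∀ k ≤ T, ∀ i l, |V k i l| ≤ 2 ^ (3 * T + 6 * R) := fun k hk i l =>
    (hcpa'.1 k hk i l).trans (pow_bound T R k (nrow D) hk hdR)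
  have hcb : ∀ k ≤ T, ∀ l, |lv (nrow D) (cen (nrow D) (st k)) l| ≤ 2 ^ (3 * T + 6 * R) := by
    intro k hk l
    rw [hcen k]
    exact cent_le _ _ (hVb k hk) l
  have hcolR : ∀ i, ∑ j, |col (CR D) (SR D) j i| ≤ 2 ^ R := fun i =>
    le_trans (le_add_of_nonneg_right (abs_nonneg _)) (hcol i)
  have hpask : ∀ k ≤ T, _ := fun k (hk : k ≤ T) =>
    hpas D (cen (nrow D) (st k)) P K m (3 * T + 6 * R) hD (hlen k) hS hm hKP
      (by
        calc nrow D ≤ R := hdR
          _ ≤ 2 ^ R := Nat.lt_two_pow_self.le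
          _ ≤ 2 ^ (3 * T + 6 * R) := Nat.pow_le_pow_right (by norm_num) (by omega))
      (by
        rw [hP, hT]
        omega)
      (hcb k hk)
      (fun i => (hcolR i).trans (pow_le_pow_right₀ (by norm_num) (by omega)))
  constructor
  · intro lam hlam
    have h1 : pass D lam P K m = true := by
      unfold tilt at hlam
      have := List.find?_some hlam
      exact this
    have h2 : ∃ k < T, lam = cen (nrow D) (st k) := by
      unfold tilt at hlam
      have h3 := List.mem_of_find?_eq_some hlam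
      rw [List.mem_map] at h3
      obtain ⟨k, hk, hk2⟩ := h3
      exact ⟨k, List.mem_range.1 hk, hk2.symm⟩
    obtain ⟨k, hk, rfl⟩ := h2
    obtain ⟨p1, p2, p3, p4, p5, p6, p7⟩ := hpask k hk.le
    exact ⟨hlen k, p1, p2, p3, p4, p5, p6 h1⟩
  · rintro ⟨z, hz1, hz2⟩
    obtain ⟨y, hy1, hy2⟩ := hmin D.1.length (nrow D) (CR D) (SR D) (eR D) (1 / 2 ^ R) z hS
      (by positivity) hz1 hz2
    have hRr : (10 : ℝ) ≤ R := by exact_mod_cast hR
    have hdr : (nrow D : ℝ) ≤ R := by exact_mod_cast hdR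
    have hd1 : (1 : ℝ) ≤ nrow D := by exact_mod_cast hd
    have hRp : (R : ℝ) ≤ 2 ^ R := nat_le_two_pow R
    have hdp : (nrow D : ℝ) ≤ 2 ^ R := hdr.trans hRp
    have hyb : ∀ i, |y i| ≤ 2 ^ (4 * R) - 1 := fun i =>
      (hy2 i).trans (min_bound R D.1.length (nrow D) hR hND)
    have hρ : (0 : ℝ) < 1 / 2 ^ (2 * R + 64) := by positivity
    have hρ1 : (1 : ℝ) / 2 ^ (2 * R + 64) ≤ 1 := by
      rw [div_le_one (by positivity)]
      exact one_le_pow₀ (by norm_num)
    have hcube : ∀ l, -2 ^ (4 * R) ≤ y l ∧ y l + 1 / 2 ^ (2 * R + 64) ≤ 2 ^ (4 * R) := by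
      intro l
      have h1 := abs_le.1 (hyb l)
      constructor
      · linarith [h1.1]
      · linarith [h1.2]
    obtain ⟨k, hk, x, hx1, hx2, hx3⟩ := hcpa'.2 (1 / 2 ^ (2 * R + 64)) y hρ hcube
      (log_bound R (nrow D) hR hd hdR)
    set c : Fin (nrow D) → ℝ := lv (nrow D) (cen (nrow D) (st k)) with hc
    have hgr := hgro D.1.length (nrow D) (CR D) (SR D) (eR D)
    have g2 := hgr.2.1 c x
    have g3 := hgr.2.2.1 x y
    -- the error of the gradient
    have hgd : ∀ i, |g k i - gg (CR D) (SR D) (eR D) c i| ≤ 2 ^ R * (2 / 2 ^ P) := by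
      intro i
      have h1 := (hval D (cen (nrow D) (st k)) hD (hlen k)).2.2.2.2.2 P K hP1 hKP i
      exact h1.trans (mul_le_mul_of_nonneg_right (hcolR i) (by positivity))
    have hxc : ∀ i, |x i - c i| ≤ 2 ^ (3 * T + 6 * R + 1) := by
      intro i
      have h1 : |x i| ≤ 2 ^ (3 * T + 6 * R) := by
        have h2 : |x i| ≤ 2 ^ (4 * R) := by
          rw [abs_le]
          constructor
          · linarith [(hcube i).1, (hx2 i).1]
          · linarith [(hcube i).2, (hx2 i).2]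
        exact h2.trans (pow_le_pow_right₀ (by norm_num) (by omega))
      have h3 := hcb k hk.le i
      calc |x i - c i| ≤ |x i| + |c i| := abs_sub _ _
        _ ≤ 2 ^ (3 * T + 6 * R) + 2 ^ (3 * T + 6 * R) := add_le_add h1 h3
        _ = 2 ^ (3 * T + 6 * R + 1) := by ring
    have herr1 : -(1 / 2 ^ 64) ≤ ∑ i, gg (CR D) (SR D) (eR D) c i * (x i - c i) := by
      have h1 : ∑ i, gg (CR D) (SR D) (eR D) c i * (x i - c i) =
          ∑ i, g k i * (x i - c i) -
            ∑ i, (g k i - gg (CR D) (SR D) (eR D) c i) * (x i - c i) := by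
        rw [← Finset.sum_sub_distrib]
        exact Finset.sum_congr rfl fun i _ => by ring
      have h2 : 0 ≤ ∑ i, g k i * (x i - c i) := by
        rw [hc, hcen k]
        exact hx3
      have h3 : ∑ i, (g k i - gg (CR D) (SR D) (eR D) c i) * (x i - c i) ≤ 1 / 2 ^ 64 := by
        calc ∑ i, (g k i - gg (CR D) (SR D) (eR D) c i) * (x i - c i)
            ≤ ∑ _i : Fin (nrow D), (2 ^ R * (2 / 2 ^ P)) * 2 ^ (3 * T + 6 * R + 1) := by
              refine Finset.sum_le_sum fun i _ => ?_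
              refine (le_abs_self _).trans ?_
              rw [abs_mul]
              exact mul_le_mul (hgd i) (hxc i) (abs_nonneg _) (by positivity)
          _ = nrow D * ((2 ^ R * (2 / 2 ^ P)) * 2 ^ (3 * T + 6 * R + 1)) := by
              rw [Finset.sum_const, Finset.card_univ, Fintype.card_fin, nsmul_eq_mul]
          _ ≤ 2 ^ R * ((2 ^ R * (2 / 2 ^ P)) * 2 ^ (3 * T + 6 * R + 1)) := by
              gcongr
          _ = 2 ^ (3 * T + 8 * R + 2) / 2 ^ P := by
              rw [show 3 * T + 8 * R + 2 = R + R + 1 + (3 * T + 6 * R + 1) by ring, pow_add,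
                pow_add, pow_add]
              ring
          _ ≤ 1 / 2 ^ 64 := by
              rw [div_le_div_iff₀ (by positivity) (by positivity), one_mul, ← pow_add]
              exact pow_le_pow_right₀ (by norm_num) (by rw [hP, hT]; omega)
      rw [h1]
      linarith
    have herr2 : FF (CR D) (SR D) (eR D) x ≤ FF (CR D) (SR D) (eR D) y + 1 / 2 ^ 64 := by
      have h1 : ∑ i, |x i - y i| * ((∑ j, |col (CR D) (SR D) j i|) + |eR D i|) ≤
          1 / 2 ^ 64 := by
        calc ∑ i, |x i - y i| * ((∑ j, |col (CR D) (SR D) j i|) + |eR D i|)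
            ≤ ∑ _i : Fin (nrow D), 1 / 2 ^ (2 * R + 64) * 2 ^ R := by
              refine Finset.sum_le_sum fun i _ => ?_
              have h2 : |x i - y i| ≤ 1 / 2 ^ (2 * R + 64) := by
                rw [abs_le]
                constructor
                · linarith [(hx2 i).1]
                · linarith [(hx2 i).2]
              exact mul_le_mul h2 (hcol i) (by positivity) (by positivity)
          _ = nrow D * (1 / 2 ^ (2 * R + 64) * 2 ^ R) := by
              rw [Finset.sum_const, Finset.card_univ, Fintype.card_fin, nsmul_eq_mul]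
          _ ≤ 2 ^ R * (1 / 2 ^ (2 * R + 64) * 2 ^ R) := by
              gcongr
          _ = 1 / 2 ^ 64 := by
              rw [show 2 * R + 64 = R + R + 64 by ring, pow_add, pow_add]
              field_simp
      have h2 := (le_abs_self _).trans (g3.trans h1)
      linarith
    have hFF : FF (CR D) (SR D) (eR D) c - 1 / 10 ^ 17 ≤ FF (CR D) (SR D) (eR D) y := by
      have h1 : (1 : ℝ) / 2 ^ 64 + 1 / 2 ^ 64 ≤ 1 / 10 ^ 17 := by norm_num
      linarith
    obtain ⟨p1, p2, p3, p4, p5, p6, p7⟩ := hpask k hk.le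
    have hdec' := hdec D.1.length (nrow D) (CR D) (SR D) (eR D) c
      (lm (nrow D) (tmat (hh D (cen (nrow D) (st k))) m)) (1 / 10 ^ 17) p1 (by norm_num)
      (by norm_num) (fun lam' => hFF.trans (hy1 lam'))
    have hpass : pass D (cen (nrow D) (st k)) P K m = true :=
      p7 (hdec'.trans (by norm_num))
    have hsome : (tilt D P K (4 * R) T m).isSome = true := by
      unfold tilt
      rw [List.find?_isSome]
      exact ⟨cen (nrow D) (st k), List.mem_map.2 ⟨k, List.mem_range.2 hk, rfl⟩, hpass⟩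
    exact Option.isSome_iff_exists.1 hsome

end

end Pool.Agent.Helper77.FR
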